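import Pool.Agent.helper82.SW.SpecW

/-!
# SW, SAT: tests of the rescaled set and of the set of bricks
-/

namespace Pool.Agent.helper82.SW

open MeasureTheory Filter Topology TopologicalSpace

/-- Rescaled points. -/
theorem SAT_re (i E U : ℕ) (hE : E ≤ i) (hU : U = 2 ^ (i - E)) (x : ℤ × ℤ) :
    2 * 2 ^ E * (SpectralPivotal.pos x / ((2 ^ i : ℕ) : ℂ)).re = ((sh x).1 : ℝ) / U := by
  have h2 : ((2 : ℝ) ^ i) = 2 ^ E * U := by
    rw [hU]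
    push_cast
    rw [← pow_add]
    congr 1
    omega
  have hne : (2 : ℝ) ^ E ≠ 0 := by positivity
  have hU0 : (U : ℝ) ≠ 0 := by
    rw [hU]
    positivity
  have h3 : (SpectralPivotal.pos x / ((2 ^ i : ℕ) : ℂ)).re = (x.1 + x.2 / 2 : ℝ) / 2 ^ i := by
    rw [Complex.div_natCast_re]
    simp [SpectralPivotal.pos]
  rw [h3, h2, sh]
  push_cast
  field_simp

theorem SAT_im (i E U : ℕ) (hE : E ≤ i) (hU : U = 2 ^ (i - E)) (x : ℤ × ℤ) :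
    2 * 2 ^ E * (SpectralPivotal.pos x / ((2 ^ i : ℕ) : ℂ)).im = ((sh x).2 : ℝ) * √3 / U := by
  have h2 : ((2 : ℝ) ^ i) = 2 ^ E * U := by
    rw [hU]
    push_cast
    rw [← pow_add]
    congr 1
    omega
  have hne : (2 : ℝ) ^ E ≠ 0 := by positivity
  have hU0 : (U : ℝ) ≠ 0 := by
    rw [hU]
    positivity
  have h3 : (SpectralPivotal.pos x / ((2 ^ i : ℕ) : ℂ)).im = (√3 / 2 * x.2 : ℝ) / 2 ^ i := by
    rw [Complex.div_natCast_im]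
    simp [SpectralPivotal.pos]
  rw [h3, h2, sh]
  field_simp

/-- Existential statements over the rescaled set. -/
theorem SAT_ex (i : ℕ) (S : Finset (SpectralPivotal.sites (2 ^ i))) (P : ℂ → Prop)
    (Q : ℤ × ℤ → Prop)
    (h : ∀ x : ℤ × ℤ, P (SpectralPivotal.pos x / ((2 ^ i : ℕ) : ℂ)) ↔ Q (sh x)) :
    (∃ z ∈ SpectralPivotal.scaled (2 ^ i) S, P (z : ℂ)) ↔
      ∃ v ∈ (fun x : SpectralPivotal.sites (2 ^ i) => sh x) '' (S : Set _), Q v := by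
  constructor
  · rintro ⟨z, ⟨x, hx, hz⟩, hP⟩
    exact ⟨sh x, ⟨x, hx, rfl⟩, (h x).1 (hz ▸ hP)⟩
  · rintro ⟨_, ⟨x, hx, rfl⟩, hQ⟩
    have hn : (0 : ℝ) < ((2 ^ i : ℕ) : ℝ) := by positivity
    have hmem : SpectralPivotal.pos x / ((2 ^ i : ℕ) : ℂ) ∈ SpectralPivotal.unitSquare := by
      obtain ⟨h1, h2, h3, h4⟩ := x.2
      refine ⟨?_, ?_, ?_, ?_⟩
      · rw [Complex.div_natCast_re]
        exact div_nonneg h1 hn.le
      · rw [Complex.div_natCast_re, div_le_one hn]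
        exact h2
      · rw [Complex.div_natCast_im]
        exact div_nonneg h3 hn.le
      · rw [Complex.div_natCast_im, div_le_one hn]
        exact h4
    exact ⟨⟨_, hmem⟩, ⟨x, hx, rfl⟩, (h x).2 hQ⟩

theorem SAT_core (i E U : ℕ) (hE : E ≤ i) (hU : U = 2 ^ (i - E)) (φ : TP.Form)
    (S : Finset (SpectralPivotal.sites (2 ^ i))) :
    (satCK E (SpectralPivotal.scaled (2 ^ i) S) φ ↔
      TP.satC U ((fun x : SpectralPivotal.sites (2 ^ i) => sh x) '' (S : Set _)) φ) ∧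
    (satOK E (SpectralPivotal.scaled (2 ^ i) S) φ ↔
      TP.satO U ((fun x : SpectralPivotal.sites (2 ^ i) => sh x) '' (S : Set _)) φ) := by
  have hU0 : (0 : ℝ) < U := by
    rw [hU]
    positivity
  have h3 : (0 : ℝ) < √3 := by positivity
  have r1 : ∀ (A : ℤ) (x : ℤ × ℤ), ((A : ℝ) ≤ 2 * 2 ^ E *
      (SpectralPivotal.pos x / ((2 ^ i : ℕ) : ℂ)).re) ↔ A * (U : ℤ) ≤ (sh x).1 := by
    intro A x
    rw [SAT_re i E U hE hU, le_div_iff₀ hU0]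
    exact_mod_cast Iff.rfl
  have r2 : ∀ (A : ℤ) (x : ℤ × ℤ), (2 * 2 ^ E *
      (SpectralPivotal.pos x / ((2 ^ i : ℕ) : ℂ)).re ≤ (A : ℝ)) ↔ (sh x).1 ≤ A * (U : ℤ) := by
    intro A x
    rw [SAT_re i E U hE hU, div_le_iff₀ hU0]
    exact_mod_cast Iff.rfl
  have r3 : ∀ (A : ℤ) (x : ℤ × ℤ), ((A : ℝ) < 2 * 2 ^ E *
      (SpectralPivotal.pos x / ((2 ^ i : ℕ) : ℂ)).re) ↔ A * (U : ℤ) < (sh x).1 := by
    intro A x
    rw [SAT_re i E U hE hU, lt_div_iff₀ hU0]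
    exact_mod_cast Iff.rfl
  have r4 : ∀ (A : ℤ) (x : ℤ × ℤ), (2 * 2 ^ E *
      (SpectralPivotal.pos x / ((2 ^ i : ℕ) : ℂ)).re < (A : ℝ)) ↔ (sh x).1 < A * (U : ℤ) := by
    intro A x
    rw [SAT_re i E U hE hU, div_lt_iff₀ hU0]
    exact_mod_cast Iff.rfl
  have i1 : ∀ (A : ℤ) (x : ℤ × ℤ), ((A : ℝ) * √3 ≤ 2 * 2 ^ E *
      (SpectralPivotal.pos x / ((2 ^ i : ℕ) : ℂ)).im) ↔ A * (U : ℤ) ≤ (sh x).2 := by
    intro A x
    rw [SAT_im i E U hE hU, le_div_iff₀ hU0, mul_right_comm, mul_le_mul_iff_left₀ h3]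
    exact_mod_cast Iff.rfl
  have i2 : ∀ (A : ℤ) (x : ℤ × ℤ), (2 * 2 ^ E *
      (SpectralPivotal.pos x / ((2 ^ i : ℕ) : ℂ)).im ≤ (A : ℝ) * √3) ↔ (sh x).2 ≤ A * (U : ℤ) := by
    intro A x
    rw [SAT_im i E U hE hU, div_le_iff₀ hU0, mul_right_comm (A : ℝ), mul_le_mul_iff_left₀ h3]
    exact_mod_cast Iff.rfl
  have i3 : ∀ (A : ℤ) (x : ℤ × ℤ), ((A : ℝ) * √3 < 2 * 2 ^ E *
      (SpectralPivotal.pos x / ((2 ^ i : ℕ) : ℂ)).im) ↔ A * (U : ℤ) < (sh x).2 := by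
    intro A x
    rw [SAT_im i E U hE hU, lt_div_iff₀ hU0, mul_right_comm, mul_lt_mul_iff_left₀ h3]
    exact_mod_cast Iff.rfl
  have i4 : ∀ (A : ℤ) (x : ℤ × ℤ), (2 * 2 ^ E *
      (SpectralPivotal.pos x / ((2 ^ i : ℕ) : ℂ)).im < (A : ℝ) * √3) ↔ (sh x).2 < A * (U : ℤ) := by
    intro A x
    rw [SAT_im i E U hE hU, div_lt_iff₀ hU0, mul_right_comm (A : ℝ), mul_lt_mul_iff_left₀ h3]
    exact_mod_cast Iff.rfl
  induction φ with
  | hit a b c d =>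
    constructor
    · refine SAT_ex i S (fun z => (a : ℝ) ≤ 2 * 2 ^ E * z.re ∧ 2 * 2 ^ E * z.re ≤ b ∧
        c * √3 ≤ 2 * 2 ^ E * z.im ∧ 2 * 2 ^ E * z.im ≤ d * √3)
        (fun v => a * (U : ℤ) ≤ v.1 ∧ v.1 ≤ b * U ∧ c * U ≤ v.2 ∧ v.2 ≤ d * U) fun x => ?_
      exact and_congr (r1 a x) (and_congr (r2 b x) (and_congr (i1 c x) (i2 d x)))
    · refine SAT_ex i S (fun z => (a : ℝ) - 1 < 2 * 2 ^ E * z.re ∧ 2 * 2 ^ E * z.re < b + 1 ∧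
        (c - 1) * √3 < 2 * 2 ^ E * z.im ∧ 2 * 2 ^ E * z.im < (d + 1) * √3)
        (fun v => (a - 1) * (U : ℤ) < v.1 ∧ v.1 < (b + 1) * U ∧ (c - 1) * U < v.2 ∧
          v.2 < (d + 1) * U) fun x => ?_
      have e1 := r3 (a - 1) x
      have e2 := r4 (b + 1) x
      have e3 := i3 (c - 1) x
      have e4 := i4 (d + 1) x
      rw [Int.cast_sub, Int.cast_one] at e1 e3
      rw [Int.cast_add, Int.cast_one] at e2 e4
      exact and_congr e1 (and_congr e2 (and_congr e3 e4))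
  | miss a b c d =>
    constructor
    · refine not_congr (SAT_ex i S (fun z => (a : ℝ) < 2 * 2 ^ E * z.re ∧ 2 * 2 ^ E * z.re < b ∧
        c * √3 < 2 * 2 ^ E * z.im ∧ 2 * 2 ^ E * z.im < d * √3)
        (fun v => a * (U : ℤ) < v.1 ∧ v.1 < b * U ∧ c * U < v.2 ∧ v.2 < d * U) fun x => ?_)
      exact and_congr (r3 a x) (and_congr (r4 b x) (and_congr (i3 c x) (i4 d x)))
    · refine not_congr (SAT_ex i S (fun z => (a : ℝ) + 1 ≤ 2 * 2 ^ E * z.re ∧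
        2 * 2 ^ E * z.re ≤ b - 1 ∧
        (c + 1) * √3 ≤ 2 * 2 ^ E * z.im ∧ 2 * 2 ^ E * z.im ≤ (d - 1) * √3)
        (fun v => (a + 1) * (U : ℤ) ≤ v.1 ∧ v.1 ≤ (b - 1) * U ∧ (c + 1) * U ≤ v.2 ∧
          v.2 ≤ (d - 1) * U) fun x => ?_)
      have e1 := r1 (a + 1) x
      have e2 := r2 (b - 1) x
      have e3 := i1 (c + 1) x
      have e4 := i2 (d - 1) x
      rw [Int.cast_add, Int.cast_one] at e1 e3
      rw [Int.cast_sub, Int.cast_one] at e2 e4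
      exact and_congr e1 (and_congr e2 (and_congr e3 e4))
  | and φ ψ h1 h2 => exact ⟨and_congr h1.1 h2.1, and_congr h1.2 h2.2⟩
  | or φ ψ h1 h2 => exact ⟨or_congr h1.1 h2.1, or_congr h1.2 h2.2⟩
  | tt => exact ⟨Iff.rfl, Iff.rfl⟩
  | ff => exact ⟨Iff.rfl, Iff.rfl⟩

theorem SAT : SAT_stmt := fun i E φ S hE => SAT_core i E _ hE rfl φ S

end Pool.Agent.helper82.SW
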